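import Pool.Agent.H.MP_bb4c62_an.helper6.NDefs
namespace Pool.Agent.H.MP_bb4c62_an.helper6.NL
open Complex Metric Set Filter Topology
open Pool.Agent.H.MP_bb4c62_an.helper6.Perturb
open Pool.Agent.H.MP_bb4c62_an.helper6.Gadgets
variable {X : Type*} [NormedAddCommGroup X] [NormedSpace ℂ X]
variable {Y : Type*} [NormedAddCommGroup Y] [NormedSpace ℂ Y]

theorem glue_abs {E E' : Type*} [AddCommGroup E] [Module ℂ E] [AddCommGroup E'] [Module ℂ E']
    (P : E →ₗ[ℂ] E' →ₗ[ℂ] ℂ) (B B' : E → E' → (Y →L[ℂ] Y))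
    (c : ℂ) (τ : ℂ ≃+* ℂ) (S : E ≃+ Y) (Q : E' → (Y →L[ℂ] ℂ)) (hc : c ≠ 0)
    (hS : ∀ (a : ℂ) x, S (a • x) = τ a • S x) (hQ : ∀ x f, Q f (S x) = τ (P x f))
    (hB : ∀ x f, P x f = 0 → B x f = c • ten (S x) (Q f))
    (c' : ℂ) (τ' : ℂ ≃+* ℂ) (S' : E ≃+ Y) (Q' : E' → (Y →L[ℂ] ℂ)) (hc' : c' ≠ 0)
    (hS' : ∀ (a : ℂ) x, S' (a • x) = τ' a • S' x) (hQ' : ∀ x f, Q' f (S' x) = τ' (P x f))
    (hB' : ∀ x f, P x f = 0 → B' x f = c' • ten (S' x) (Q' f))
    (x0 : E) (f0 : E') (hx0 : x0 ≠ 0) (hf0 : f0 ≠ 0) (h0 : P x0 f0 = 0)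
    (hL : ∀ h, P x0 h = 0 → B' x0 h = B x0 h) (hR : ∀ u, P u f0 = 0 → B' u f0 = B u f0)
    (hq : ∀ u k, P u k = 0 → spectralRadius ℂ (B x0 f0 + B' u k - B u k) = 0)
    (sa : ∀ g : E', g ≠ 0 → ∃ z, P z g = 1) (sa' : ∀ z : E, z ≠ 0 → ∃ g, P z g = 1)
    (sb : ∀ w, (∀ h, P x0 h = 0 → P w h = 0) → ∃ ν : ℂ, w = ν • x0)
    (sb' : ∀ g, (∀ u, P u f0 = 0 → P u g = 0) → ∃ ν : ℂ, g = ν • f0)
    (sc : ∃ u k, P u k = 0 ∧ P u f0 = 1 ∧ P x0 k = 1)
    (sd : ∃ u h, P u f0 = 0 ∧ P x0 h = 0 ∧ P u h = 1) :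
    ∀ x f, P x f = 0 → B' x f = B x f := by
  have hSx0 : S x0 ≠ 0 := fun h => hx0 ((map_eq_zero_iff S S.injective).mp h)
  -- key equality on the two stars
  have key1 : ∀ h, P x0 h = 0 → ∀ y, (c * Q h y) • S x0 = (c' * Q' h y) • S' x0 := by
    intro h hh y
    have e := hL h hh
    rw [hB x0 h hh, hB' x0 h hh] at e
    have e2 := congrArg (fun T : Y →L[ℂ] Y => T y) e
    simp only [smul_apply, ten_apply, smul_smul] at e2
    exact e2.symm
  have key2 : ∀ u, P u f0 = 0 → ∀ y, (c * Q f0 y) • S u = (c' * Q' f0 y) • S' u := by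
    intro u hu y
    have e := hR u hu
    rw [hB u f0 hu, hB' u f0 hu] at e
    have e2 := congrArg (fun T : Y →L[ℂ] Y => T y) e
    simp only [smul_apply, ten_apply, smul_smul] at e2
    exact e2.symm
  obtain ⟨z, hz⟩ := sa f0 hf0
  have hQz : Q f0 (S z) = 1 := by rw [hQ, hz, map_one]
  obtain ⟨m, hm⟩ : ∃ m, m = Q' f0 (S z) := ⟨_, rfl⟩
  have e0 := key1 f0 h0 (S z)
  rw [hQz, ← hm, mul_one] at e0
  have hm0 : m ≠ 0 := by
    rintro rfl
    rw [mul_zero, zero_smul] at e0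
    exact (smul_ne_zero hc hSx0) e0
  obtain ⟨l, hl⟩ : ∃ l, l = c / (c' * m) := ⟨_, rfl⟩
  have hl0 : l ≠ 0 := by
    rw [hl]; exact div_ne_zero hc (mul_ne_zero hc' hm0)
  have hclm : c = c' * m * l := by
    rw [hl]; field_simp
  have hS'u : ∀ u, P u f0 = 0 → S' u = l • S u := by
    intro u hu
    have e := key2 u hu (S z)
    rw [hQz, ← hm, mul_one, hclm, mul_smul] at e
    exact ((smul_right_injective Y (mul_ne_zero hc' hm0)) e).symm
  have hS'x0 : S' x0 = l • S x0 := hS'u x0 h0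
  have hQ'h : ∀ h, P x0 h = 0 → ∀ y, Q' h y = m * Q h y := by
    intro h hh y
    have e := key1 h hh y
    rw [hS'x0, smul_smul] at e
    have e2 : c * Q h y = c' * Q' h y * l := smul_left_injective ℂ hSx0 e
    rw [hclm] at e2
    have e3 : (c' * l) * (m * Q h y) = (c' * l) * Q' h y := by linear_combination e2
    exact (mul_left_cancel₀ (mul_ne_zero hc' hl0) e3).symm
  -- Step 3
  obtain ⟨u1, h1, hu1, hh1, hu1h1⟩ := sd
  have hu10 : u1 ≠ 0 := by
    rintro rfl
    rw [map_zero] at hu1h1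
    simp at hu1h1
  have hSu1 : S u1 ≠ 0 := fun h => hu10 ((map_eq_zero_iff S S.injective).mp h)
  have hττ : ∀ a, τ' a = τ a := by
    intro a
    have e1 : S' (a • u1) = l • S (a • u1) := by
      apply hS'u
      rw [map_smul, LinearMap.smul_apply, hu1, smul_zero]
    rw [hS', hS'u u1 hu1, hS, smul_smul, smul_smul, mul_comm (τ' a) l] at e1
    have e2 := smul_left_injective ℂ hSu1 e1
    exact mul_left_cancel₀ hl0 e2
  have hml : m * l = 1 := by
    have e1 := hQ' u1 h1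
    rw [hu1h1, map_one, hS'u u1 hu1, map_smul, smul_eq_mul, hQ'h h1 hh1, hQ, hu1h1, map_one] at e1
    linear_combination e1
  have hcc : c = c' := by rw [hclm, mul_assoc, hml, mul_one]
  -- Step 4
  obtain ⟨w, hw⟩ := S.surjective (m • S' z - S z)
  obtain ⟨ν, hν⟩ := sb w (by
    intro h hh
    have e1 : Q h (S w) = 0 := by
      rw [hw, map_sub, map_smul, smul_eq_mul, ← hQ'h h hh, hQ', hQ, hττ, sub_self]
    rw [hQ] at e1
    exact (map_eq_zero_iff τ τ.injective).mp e1)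
  have hS'z : S' z = l • S (z + ν • x0) := by
    have e1 : m • S' z = S (z + ν • x0) := by
      rw [map_add, ← hν, hw]; abel
    rw [← e1, smul_smul, mul_comm l m, hml, one_smul]
  have hS'v : ∀ v, S' v = l • S (v + (P v f0 * ν) • x0) := by
    intro v
    have e1 : v = (v - (P v f0) • z) + (P v f0) • z := by abel
    have e2 : P (v - (P v f0) • z) f0 = 0 := by
      rw [map_sub, map_smul, LinearMap.sub_apply, LinearMap.smul_apply, hz, smul_eq_mul, mul_one,
        sub_self]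
    calc S' v = S' (v - (P v f0) • z) + S' ((P v f0) • z) := by rw [← map_add, ← e1]
      _ = l • S (v - (P v f0) • z) + τ (P v f0) • (l • S (z + ν • x0)) := by
          rw [hS'u _ e2, hS', hS'z, hττ]
      _ = l • S (v + (P v f0 * ν) • x0) := by
          rw [smul_comm, ← smul_add, ← hS, ← map_add]
          congr 2
          rw [smul_add, smul_smul]; abel
  -- Step 5
  have hQ'g : ∀ g v, l * Q' g (S v) = τ (P v g - ν * P v f0 * P x0 g) := by
    intro g v
    have e1 := hS'v (v - (P v f0 * ν) • x0)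
    have e2 : P (v - (P v f0 * ν) • x0) f0 = P v f0 := by
      rw [map_sub, map_smul, LinearMap.sub_apply, LinearMap.smul_apply, h0, smul_zero, sub_zero]
    rw [e2, sub_add_cancel] at e1
    have e3 := hQ' (v - (P v f0 * ν) • x0) g
    rw [e1, map_smul, smul_eq_mul, hττ] at e3
    rw [e3]
    congr 1
    rw [map_sub, map_smul, LinearMap.sub_apply, LinearMap.smul_apply, smul_eq_mul]
    ring
  -- Step 6
  have hν0 : ν = 0 := by
    obtain ⟨u, k, huk, huf, hxk⟩ := sc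
    have hW : (B x0 f0 + B' u k - B u k) (S x0) = (c * τ ν) • S x0 := by
      rw [hB x0 f0 h0, hB u k huk, hB' u k huk]
      simp only [sub_apply, add_apply,
        smul_apply, ten_apply]
      rw [hQ x0 f0, h0, map_zero, zero_smul, smul_zero, zero_add, hQ x0 k, hxk, map_one, one_smul,
        hS'v u, huf, one_mul]
      have e1 : Q' k (S x0) * l = 1 := by
        have := hQ'g k x0
        rw [h0, mul_zero, zero_mul, sub_zero, hxk, map_one] at this
        rw [mul_comm]; exact this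
      have e2 : (Q' k) (S x0) • l • S (u + ν • x0) = S u + τ ν • S x0 := by
        rw [smul_smul, e1, one_smul, map_add, hS]
      rw [e2, ← hcc, smul_add, smul_smul]
      abel
    have hq0 := hq u k huk
    by_contra hne
    have hτν : τ ν ≠ 0 := fun h => hne ((map_eq_zero_iff τ τ.injective).mp h)
    exact not_qn_of_eigen hSx0 (mul_ne_zero hc hτν) hW hq0
  -- Step 7
  intro x f hxf
  rw [hB x f hxf, hB' x f hxf, ← hcc]
  congr 1
  ext y
  rw [ten_apply, ten_apply]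
  obtain ⟨v, rfl⟩ := S.surjective y
  rw [hS'v x, hν0, mul_zero, zero_smul, add_zero, smul_smul, hQ]
  congr 1
  have := hQ'g f v
  rw [hν0, zero_mul, zero_mul, sub_zero] at this
  rw [mul_comm]; exact this

end Pool.Agent.H.MP_bb4c62_an.helper6.NL
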